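import Pool.Agent.Run7.h186.BF5
import Pool.Agent.Run7.h186.BF6
import Pool.Agent.X288.L2.Inst

/-!
# All rational elliptic curves over a system of number fields: the line `Re s = 3/2`

Let `E_e` be any family of modular elliptic curves over `ℚ`, pairwise not isogenous (by the modularity
theorem and Faltings' theorem this may be the family of all elliptic curves over `ℚ` up to isogeny), and
`K` any number field, of degree `n`.  Let `r` be the number of the orbits of the Galois group on the
pairs of embeddings of `K`.  The theorem says that the sum over **all** curves `E_e` and **all** points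
`3/2 + iτ` of the line of the squares of the positive orders of `L(E_e/K, s) / L(E_e/ℚ, s)` is at most
`r - 1`, and at most `r - 2` if `n ≥ 2r`; the same for the squares of the negative orders.  So, for `n ≥ 2r`,
for all but `r - 2` isogeny classes of elliptic curves `L(E/K, s)` has no pole on the whole line, and for all
but `r - 2` isogeny classes it has no zero there.  Without any continuation the same bound `r - 1` holds for
the limits of the sizes.  More generally this is proved for the products
`∏_j (L(E_e/K_j, s) / L(E_e/ℚ, s))^{d_j}` for several fields.  For the infinite family of the quadratic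
twists of `X_0(14)` by the prime numbers `l > 7`, which have no complex multiplication, the hypotheses
(modular, pairwise not isogenous) are also proved here.

The proof is Bessel's inequality for the system of the functions `a_p p^{-1/2 - iτ}` on the prime numbers,
which is orthogonal from one side by the Rankin-Selberg convolutions `f_e × f_{e'}` at all heights (with
unfolding of the Eisenstein series at `s = 1 + iτ`), together with Chebotarev's theorem and the bound of
Hasse.
-/

set_option autoImplicit false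

namespace Pool.Agent.Results.MP_bf9450_nt.AllCurves

open NumberField IsDedekindDomain Filter Topology
open Run7.h186.BF
open Pool.Agent.Y722.EP (IsModular NotIsogenous)

/-- **All curves and all heights.**  Let `K_j` (`j ∈ J`) be finitely many number fields, `d_j` integers, and
`E_e` modular elliptic curves over `ℚ`, pairwise not isogenous.
1. For every finite set `S` of pairs `x = (e, τ)` and every `η > 0` the sum over `x ∈ S` of the squares of the
positive parts of `log |∏_j (L(E_e/K_j, s) / L(E_e/ℚ, s))^{d_j}| / log(1/ε)`, `s = 3/2 + iτ + ε`, is at most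
`form + η` for all small `ε > 0`, and the same for the negative parts.
2. If these functions have continuations to neighbourhoods of the points `3/2 + iτ`, with the orders `r x`,
then `∑ max(r x, 0)² ≤ bound` and `∑ max(-r x, 0)² ≤ bound`; more precisely
`∑ max(±r x, 0)² + excess(∑ max(±r x, 0)) ≤ form`.
3. There are sets `F`, `G` of at most `bound` curves such that for all `e ∉ F` the function has no pole on the
whole line, and for all `e ∉ G` it has no zero there.
4. For one field `K` of degree `n`, and `d = 1`, the bound is `r - 1`, and `r - 2` if `n ≥ 2r`, where `r` is the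
number of the orbits of the Galois group on the pairs of embeddings of `K`.
5. The quadratic twists of `X_0(14)` by the prime numbers `l > 7` are modular and pairwise not isogenous. -/
theorem result :
    (∀ (J : Type) [Fintype J] (K : J → Type) [∀ j, Field (K j)] [∀ j, NumberField (K j)]
      [∀ j, Algebra ℚ (K j)] (d : J → ℤ) (ι : Type) (X : Family ι K),
      (∀ (S : Finset (ι × ℝ)) (η : ℝ), 0 < η → ∀ᶠ ε : ℝ in 𝓝[>] 0,
        ∑ x ∈ S, (max (X.size d x ε) 0) ^ 2 ≤ (form ℚ K d : ℝ) + η ∧
        ∑ x ∈ S, (max (-X.size d x ε) 0) ^ 2 ≤ (form ℚ K d : ℝ) + η) ∧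
      (∀ (S : Finset (ι × ℝ)) (r : ι × ℝ → ℤ), (∀ x ∈ S, X.HasOrder d x (r x)) →
        ∑ x ∈ S, (max (r x) 0) ^ 2 ≤ bound ℚ K d ∧
        ∑ x ∈ S, (max (-r x) 0) ^ 2 ≤ bound ℚ K d ∧
        ((∑ x ∈ S, (max (r x) 0) ^ 2 : ℤ) : ℝ) +
          excess ℚ K d ((∑ x ∈ S, max (r x) 0 : ℤ) : ℝ) ≤ (form ℚ K d : ℝ) ∧
        ((∑ x ∈ S, (max (-r x) 0) ^ 2 : ℤ) : ℝ) +
          excess ℚ K d ((∑ x ∈ S, max (-r x) 0 : ℤ) : ℝ) ≤ (form ℚ K d : ℝ)) ∧
      ∃ F G : Finset ι, (F.card : ℤ) ≤ bound ℚ K d ∧ (G.card : ℤ) ≤ bound ℚ K d ∧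
        ∀ (e : ι) (τ : ℝ) (r : ℤ), X.HasOrder d (e, τ) r →
          (e ∉ F → 0 ≤ r) ∧ (e ∉ G → r ≤ 0)) ∧
    (∀ (K : Type) [Field K] [NumberField K] [Algebra ℚ K],
      bound ℚ (fun _ : Unit => K) (fun _ => 1) =
        if 2 * orbits ℚ K K ≤ Module.finrank ℚ K then (orbits ℚ K K : ℤ) - 2
        else (orbits ℚ K K : ℤ) - 1) ∧
    ∀ l : ℕ, l.Prime → 7 < l →
      4 * (5805 * (l : ℤ) ^ 2) ^ 3 + 27 * (-285714 * (l : ℤ) ^ 3) ^ 2 ≠ 0 ∧
      IsModular (5805 * (l : ℤ) ^ 2) (-285714 * (l : ℤ) ^ 3) ∧
      ∀ m : ℕ, m.Prime → 7 < m → l ≠ m →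
        NotIsogenous (5805 * (l : ℤ) ^ 2) (-285714 * (l : ℤ) ^ 3)
          (5805 * (m : ℤ) ^ 2) (-285714 * (m : ℤ) ^ 3) := by
  refine ⟨fun J _ K _ _ _ d ι X => ⟨fun S η hη => X.mean d S hη, fun S r hr => ?_,
    X.exceptional d⟩, fun K _ _ _ => bound_single K, fun l hl h7 => ?_⟩
  swap
  · have hl0 : (l : ℤ) ≠ 0 := by exact_mod_cast hl.ne_zero
    refine ⟨?_, Pool.Agent.X288.L2.modular14 hl0, fun m hm hm7 hlm =>
      notIsogenous14 hl hm hlm h7 hm7⟩
    have e : 4 * (5805 * (l : ℤ) ^ 2) ^ 3 + 27 * (-285714 * (l : ℤ) ^ 3) ^ 2 =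
        2986545364992 * (l : ℤ) ^ 6 := by ring
    rw [e]
    positivity
  have h1 := X.order hr (s := 1) (Or.inl rfl)
  have h2 := X.order hr (s := -1) (Or.inr rfl)
  have h3 := X.strict hr (s := 1) (Or.inl rfl)
  have h4 := X.strict hr (s := -1) (Or.inr rfl)
  simp only [one_mul, neg_mul] at h1 h2 h3 h4
  exact ⟨h1, h2, h3, h4⟩

end Pool.Agent.Results.MP_bf9450_nt.AllCurves
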