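import Pool.Agent.Run7.h61.TW.AppM

/-!
# The L-functions of elliptic curves over `ℚ` over arbitrary number fields, on average

`K` is a number field (`ℚ` in the question) and `F_i`, `i ∈ I`, are finitely many finite extensions of `K` (the
number fields of the question), not necessarily Galois; the exponents `k_i` are arbitrary integers, positive or
negative. For an elliptic curve `E : y² = x³ + a x + b` over `𝓞 K` let `L(E/F_i, s)` be the L-function of `E` over
`F_i`, with the Euler factors at the places `w` of `F_i` prime to `2` at which `x³ + a x + b` is separable.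

The mean value of `∏ L(E/F_i, s)^(k_i)` over all `E` with coefficients in a box converges for `Re s > 3/2` to
`F(s) = L(∧² τ, 2 s - 1) G(s)`, `τ = ∑ k_i Ind_{F_i/K} 1`, with `G` holomorphic for `Re s > 5/6` and positive at the
real points, and the same is true for the products over the places over the places `v` of `K` with `Nv ≤ Z` for
`Re s > 5/6`. At the centre `s = 1`:

`log F(x) / log(1 / (x - 1)) → e` for `x → 1+`, and `log (mean of the products over Nv ≤ Z at s = 1) / log log Z → e`,

where `e = (∑ k_i k_j r_ij - ∑ k_i s_i) / 2`, `r_ij` is the number of the orbits of the Galois group of `K` on the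
pairs of an embedding of `F_i` and an embedding of `F_j`, and `s_i` is the number of the orbits on the pairs of
embeddings of `F_i` that contain with `(x, y)` also `(y, x)`.

For one field, `k = 1`, the exponent `(r - s) / 2` is the number of the pairs of orbits that are mapped to each other
by the reversal of the pairs; it is also the exponent for `L(E/F, s) / L(E/K, s)`. So if the Galois group of `F` acts
doubly transitively (or if all orbitals are self-paired), then the mean value of `L(E/F, s)` has no pole of any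
order at the centre, and for a cyclic cubic field it has the order `1`.
-/

set_option autoImplicit false

open NumberField IsDedekindDomain Filter Topology

namespace Pool.Agent.Results.MP_bf9450_nt.BaseChangeOnAverage

open Run7.h61.TW
open Run7.h876.EN (mean)
open Run7.h876.HY (LSeries)

/-- **The mean values of the products of powers of `L(E/F_i, s)` over all elliptic curves `E` over `K`.** -/
theorem result {K : Type} [Field K] [NumberField K] {I : Type} [Fintype I] (F : I → Type) [∀ i, Field (F i)]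
    [∀ i, NumberField (F i)] [∀ i, Algebra K (F i)] (k : I → ℤ)
    {ι : Type} [Fintype ι] [DecidableEq ι] (ω : Module.Basis ι ℤ (𝓞 K)) :
    ∃ G : ℂ → ℂ, DifferentiableOn ℂ G {s | 5 / 6 < s.re} ∧ (∀ x : ℝ, 5 / 6 < x → ∃ r : ℝ, 0 < r ∧ G x = r) ∧
      (∀ σ : ℝ, 3 / 2 < σ → ∀ ε : ℝ, 0 < ε → ∃ M : ℕ, ∀ H : Fin 2 ⊕ Empty → ℕ, (∀ j, M ≤ H j) → ∀ s : ℂ, σ ≤ s.re →
        ‖mean ω H (ellFam K).smooth (fun t => ∏ i, LSeries (((ellFam K).member t).map (algebraMap (𝓞 K) (𝓞 (F i)))) s ^ k i) -
          eulerL (fun v : HeightOneSpectrum (𝓞 K) => ext2 fun m => ∑ i, (k i : ℂ) * bF (F i) v m) (2 * s - 1) * G s‖ ≤ ε) ∧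
      (∀ θ : ℝ, 0 < θ → ∀ σ : ℝ, 5 / 6 < σ → ∀ ε : ℝ, 0 < ε → ∃ Z₀ : ℕ, ∀ Z : ℕ, Z₀ ≤ Z → ∀ H : Fin 2 ⊕ Empty → ℕ,
        (∀ j, Real.exp ((Z : ℝ) ^ (1 + θ)) ≤ H j) → ∀ s : ℂ, σ ≤ s.re →
        ‖mean ω H (ellFam K).smooth (fun t => ∏ i, fPartial (F i) Z ((ellFam K).member t) s ^ k i) *
          (eulerZ Z (fun v : HeightOneSpectrum (𝓞 K) => ext2 fun m => ∑ i, (k i : ℂ) * bF (F i) v m) (2 * s - 1))⁻¹ - G s‖ ≤ ε) ∧
      Tendsto (fun x : ℝ => Real.log ‖eulerL (fun v : HeightOneSpectrum (𝓞 K) => ext2 fun m => ∑ i, (k i : ℂ) * bF (F i) v m) (2 * x - 1) * G x‖ /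
        Real.log (1 / (x - 1))) (𝓝[>] 1) (𝓝 (mixedOrder K F k)) ∧
      (∀ θ : ℝ, 0 < θ → ∀ ε : ℝ, 0 < ε → ∃ Z₀ : ℕ, ∀ Z : ℕ, Z₀ ≤ Z → ∀ H : Fin 2 ⊕ Empty → ℕ,
        (∀ j, Real.exp ((Z : ℝ) ^ (1 + θ)) ≤ H j) →
        |Real.log ‖mean ω H (ellFam K).smooth (fun t => ∏ i, fPartial (F i) Z ((ellFam K).member t) 1 ^ k i)‖ /
          Real.log (Real.log Z) - mixedOrder K F k| ≤ ε) :=
  appM F k ω

end Pool.Agent.Results.MP_bf9450_nt.BaseChangeOnAverage
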