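import Pool.Agent.Run7.h401.SM.D
import Pool.Agent.Run7.h401.SM.N

/-!
# Rational elliptic curves over several number fields: the joint distribution on the edge

Let `E_1, ..., E_m` be elliptic curves over `ℚ`, `K_1, ..., K_m` number fields and `s_1, ..., s_m` complex numbers with real
parts `≥ 0`.  We look at the vectors

`(log L(E_1/K_1, 3/2 + s_1 + it), ..., log L(E_m/K_m, 3/2 + s_m + it))`,

`t` real, in the closed half plane `Re s ≥ 3/2` of absolute convergence and its edge, where the logarithms have boundary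
values at almost all points.  No continuation of the functions `L(E/K, s)` is known or assumed.

The theorem: there is a nonnegative function `f` on `ℂ^m`, infinitely differentiable and rapidly decreasing together with all
its derivatives, such that for every set `B` in `ℂ^m` whose boundary has measure zero the proportion of the `t` in
`[T, T + H]` for which the vector lies in `B` tends to the integral of `f` over `B`, as `H → ∞`, uniformly in `T`, in each of
the following cases.

* The curves are equal, `E_1 = ... = E_m = E`, and the points `s_1, ..., s_m` are different.  The number fields are arbitrary;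
  for example the values of one function `L(E/K, s)` at any number of different points of the edge.
* The points are equal, and the functions `L(E_i/K_i, s)` are multiplicatively independent up to finitely many Euler factors:
  for every integer vector `n ≠ 0` the product of the `n_i`-th powers of the Euler polynomials at `p` is `≠ 1` for infinitely
  many primes `p`.
* In general, if the last condition holds for the shifted functions `L(E_i/K_i, s + s_i)`.

Proof.  The limit law is the law of a sum of independent random vectors, one for every rational prime `p`; the `i`-th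
component of the vector of `p` is `- log A_i(z)`, with `z` uniformly distributed on the unit circle and `A_i` the Euler
polynomial at `p` of the `i`-th function, in the variable `p^(-3/2-s_i) z`.  For a direction `u` in `ℂ^m` with
`∑ ū_i A_i'/A_i ≠ 0` the characteristic function of this vector is `O(|ξ|^(-β))` near the direction `u`, `β > 0` depending only
on the degrees (the derivative along the circle is, up to a factor, a trigonometric polynomial of bounded degree, which is
small only on small sets).  By compactness the characteristic function of the sum decreases faster than every power of `|ξ|`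
if for every `u ≠ 0` there are infinitely many such `p`.  A relation `∑ ū_i A_i'/A_i = 0` means that the multiplicities of
the zeros of the `A_i` satisfy a linear relation; applying a `ℚ`-linear map `ℂ → ℚ` one can take the coefficients of the
relation to be integers, the same for all `p`.  This proves the theorem in the second and third case.  In the first case the
relation gives for the primes `p` which split completely in all the fields `K_i`, for `k = 1` or `k = 2`,
`∑ n_i [K_i : ℚ] p^(-k (3/2 + s_i)) = 0`; the primes which split completely have a natural density (theorem of Chebotarev),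
their twisted sums `∑ p^(-1-ε-iτ)` with `τ ≠ 0` are therefore `o(log (1/ε))`, so that a nonzero generalised Dirichlet
polynomial does not vanish at almost all of them, and the product of the two sums in question is such a polynomial.
-/

set_option autoImplicit false

namespace Pool.Agent.Results.MP_bf9450_nt.JointDensityManyFields

open NumberField IsDedekindDomain Filter Topology MeasureTheory
open scoped ENNReal ContDiff

/-- `W v` is, for every finite place `v`, an integral model of `E` with discriminant minimal at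
`v`. -/
def MinimalModels {K : Type} [Field K] [NumberField K] (E : WeierstrassCurve K)
    (W : HeightOneSpectrum (𝓞 K) → WeierstrassCurve (𝓞 K)) : Prop :=
  ∀ v : HeightOneSpectrum (𝓞 K),
    (∃ C : WeierstrassCurve.VariableChange K, C • (W v).map (algebraMap (𝓞 K) K) = E) ∧
    ∀ W' : WeierstrassCurve (𝓞 K),
      (∃ C : WeierstrassCurve.VariableChange K, C • W'.map (algebraMap (𝓞 K) K) = E) →
      ∀ n : ℕ, (W v).Δ ∈ v.asIdeal ^ n → W'.Δ ∈ v.asIdeal ^ n

/-- The number `a_v`: `Nv` minus the number of affine points of the reduction of `W v`. -/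
noncomputable def trace {K : Type} [Field K] [NumberField K]
    (W : HeightOneSpectrum (𝓞 K) → WeierstrassCurve (𝓞 K)) (v : HeightOneSpectrum (𝓞 K)) : ℂ :=
  (Ideal.absNorm v.asIdeal : ℂ)
    - (Nat.card {xy : (𝓞 K ⧸ v.asIdeal) × (𝓞 K ⧸ v.asIdeal) //
        ((W v).map (Ideal.Quotient.mk v.asIdeal)).toAffine.Equation xy.1 xy.2} : ℂ)

open Classical in
/-- The Euler factor at `v`, `(1 - a_v Nv^{-s} + Nv^{1-2s})⁻¹` if the reduction at `v` is good and
`(1 - a_v Nv^{-s})⁻¹` if it is bad. -/
noncomputable def localFactor {K : Type} [Field K] [NumberField K]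
    (W : HeightOneSpectrum (𝓞 K) → WeierstrassCurve (𝓞 K)) (v : HeightOneSpectrum (𝓞 K))
    (s : ℂ) : ℂ :=
  (1 - trace W v * (Ideal.absNorm v.asIdeal : ℂ) ^ (-s)
    + (if (W v).Δ ∈ v.asIdeal then 0 else (Ideal.absNorm v.asIdeal : ℂ))
        * (Ideal.absNorm v.asIdeal : ℂ) ^ (-2 * s))⁻¹

/-- The `L`-series, as the Euler product over all finite places. -/
noncomputable def LSeries {K : Type} [Field K] [NumberField K]
    (W : HeightOneSpectrum (𝓞 K) → WeierstrassCurve (𝓞 K)) (s : ℂ) : ℂ :=
  ∏' v : HeightOneSpectrum (𝓞 K), localFactor W v s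

/-- The sum of the logarithms of the Euler factors at `s` over the finite places of norm less than `x`. -/
noncomputable def partialLog {K : Type} [Field K] [NumberField K]
    (W : HeightOneSpectrum (𝓞 K) → WeierstrassCurve (𝓞 K)) (s : ℂ) (x : ℕ) : ℂ :=
  ∑ᶠ v ∈ {v : HeightOneSpectrum (𝓞 K) | Ideal.absNorm v.asIdeal < x}, Complex.log (localFactor W v s)

/-- The value of `log L(E, s)` at `s`: the limit of the sums `partialLog W s x` as `x → ∞`. -/
noncomputable def logValue {K : Type} [Field K] [NumberField K]
    (W : HeightOneSpectrum (𝓞 K) → WeierstrassCurve (𝓞 K)) (s : ℂ) : ℂ :=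
  limUnder atTop (partialLog W s)

/-- The point `3/2 + iτ` of the edge of absolute convergence. -/
noncomputable def edgePoint (τ : ℝ) : ℂ := ((3 / 2 : ℝ) : ℂ) + (τ : ℂ) * Complex.I

open Classical in
/-- The Euler polynomial of a rational prime `p`: the product over the places `v` above `p`, with `Nv = p ^ f`, of
`1 - a_v X ^ f + Nv X ^ (2 f)` if the reduction at `v` is good and of `1 - a_v X ^ f` if it is bad. -/
noncomputable def eulerPolynomial {K : Type} [Field K] [NumberField K]
    (W : HeightOneSpectrum (𝓞 K) → WeierstrassCurve (𝓞 K)) (p : ℕ) : Polynomial ℂ :=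
  ∏ᶠ v ∈ {v : HeightOneSpectrum (𝓞 K) | (p : 𝓞 K) ∈ v.asIdeal},
    (1 - Polynomial.C (trace W v) * Polynomial.X ^ (Ideal.absNorm v.asIdeal).factorization p
      + Polynomial.C (if (W v).Δ ∈ v.asIdeal then 0 else (Ideal.absNorm v.asIdeal : ℂ)) *
        Polynomial.X ^ (2 * (Ideal.absNorm v.asIdeal).factorization p))

/-- The Euler polynomial at `p` in the variable `p^(-s) X`: the Euler polynomial at `p` of the function with the variable
shifted by `s`. -/
noncomputable def shiftedPolynomial {K : Type} [Field K] [NumberField K]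
    (W : HeightOneSpectrum (𝓞 K) → WeierstrassCurve (𝓞 K)) (s : ℂ) (p : ℕ) : Polynomial ℂ :=
  (eulerPolynomial W p).comp (Polynomial.C ((p : ℂ) ^ (-s)) * Polynomial.X)

/-- The functions with the Euler polynomials `P i p` are multiplicatively independent up to finitely many Euler factors: for
every vector of integers `n ≠ 0` the product of the powers `P i p ^ n i` with `n i > 0` and the product of the powers
`P i p ^ (-n i)` with `n i < 0` are different for infinitely many primes `p`. -/
def Independent {m : ℕ} (P : Fin m → ℕ → Polynomial ℂ) : Prop :=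
  ∀ n : Fin m → ℤ, n ≠ 0 →
    {p : ℕ | p.Prime ∧ ∏ i, P i p ^ (n i).toNat ≠ ∏ i, P i p ^ (-n i).toNat}.Infinite

/-- the places above `p` -/
theorem above_iff {K : Type} [Field K] [NumberField K] {p : ℕ} (hp : p.Prime) (v : HeightOneSpectrum (𝓞 K)) :
    ((p : ℕ) : 𝓞 K) ∈ v.asIdeal ↔ (Pool.Agent.H921R2.TatePole.below v : ℕ) = p := by
  constructor
  · intro h
    by_contra hne
    have h1 := (Pool.Agent.H921R2.TatePole.nm_eq v).2.2
    have hq := (Pool.Agent.H921R2.TatePole.below v).2
    have hco : IsCoprime (((Pool.Agent.H921R2.TatePole.below v : ℕ) : ℤ)) ((p : ℕ) : ℤ) :=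
      Nat.isCoprime_iff_coprime.2 ((Nat.coprime_primes hq hp).2 hne)
    obtain ⟨a, b, hab⟩ := hco
    have h2 : ((a : 𝓞 K) * ((Pool.Agent.H921R2.TatePole.below v : ℕ) : 𝓞 K) + (b : 𝓞 K) * ((p : ℕ) : 𝓞 K)) = 1 := by
      exact_mod_cast congrArg (fun n : ℤ => (n : 𝓞 K)) hab
    have h3 : (1 : 𝓞 K) ∈ v.asIdeal := by
      rw [← h2]
      exact v.asIdeal.add_mem (v.asIdeal.mul_mem_left _ h1) (v.asIdeal.mul_mem_left _ h)
    exact v.isPrime.ne_top ((Ideal.eq_top_iff_one _).2 h3)
  · intro h
    have h1 := (Pool.Agent.H921R2.TatePole.nm_eq v).2.2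
    rw [h] at h1
    exact h1

/-- **The joint density.**  The first part says what the numbers `logValue W s` are. -/
theorem result :
    (∀ (K : Type) [Field K] [NumberField K] (E : WeierstrassCurve ℚ) [E.IsElliptic]
      (W : HeightOneSpectrum (𝓞 K) → WeierstrassCurve (𝓞 K)), MinimalModels (E.map (algebraMap ℚ K)) W →
      (∀ s : ℂ, 3 / 2 < s.re → Tendsto (partialLog W s) atTop (𝓝 (logValue W s)) ∧
        Complex.exp (logValue W s) = LSeries W s) ∧
      ∀ᵐ t : ℝ, Tendsto (partialLog W (edgePoint t)) atTop (𝓝 (logValue W (edgePoint t)))) ∧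
    ∀ (m : ℕ) (K : Fin m → Type) [∀ i, Field (K i)] [∀ i, NumberField (K i)]
      (E : Fin m → WeierstrassCurve ℚ) [∀ i, (E i).IsElliptic]
      (W : ∀ i, HeightOneSpectrum (𝓞 (K i)) → WeierstrassCurve (𝓞 (K i))),
      (∀ i, MinimalModels ((E i).map (algebraMap ℚ (K i))) (W i)) →
      ∀ s : Fin m → ℂ, (∀ i, 0 ≤ (s i).re) →
        (((∀ i j, E i = E j) ∧ Function.Injective s) ∨
          ((∀ i j, s i = s j) ∧ Independent fun i p => eulerPolynomial (W i) p) ∨
          Independent fun i p => shiftedPolynomial (W i) (s i) p) →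
        ∃ f : (Fin m → ℂ) → ℝ, ContDiff ℝ ∞ f ∧
          (∀ k n : ℕ, ∃ C : ℝ, ∀ z, ‖z‖ ^ k * ‖iteratedFDeriv ℝ n f z‖ ≤ C) ∧
          (∀ z, 0 ≤ f z) ∧ Integrable f ∧ ∫ z, f z = 1 ∧
          ∀ B : Set (Fin m → ℂ), volume (frontier B) = 0 → ∀ ε : ℝ, 0 < ε → ∃ H₀ : ℝ, 0 < H₀ ∧
            ∀ H : ℝ, H₀ ≤ H → ∀ T : ℝ,
              |(volume {t ∈ Set.Icc T (T + H) | (fun i => logValue (W i) (s i + edgePoint t)) ∈ B}).toReal / H
                - ∫ z in B, f z| ≤ ε := by
  have htr : ∀ (K : Type) [Field K] [NumberField K] (W : HeightOneSpectrum (𝓞 K) → WeierstrassCurve (𝓞 K))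
      (v : HeightOneSpectrum (𝓞 K)), trace W v = (Pool.Agent.H341R2.EC.trc W v : ℂ) := by
    intro K _ _ W v
    have h1 : (Nat.card {xy : (𝓞 K ⧸ v.asIdeal) × (𝓞 K ⧸ v.asIdeal) //
            ((W v).map (Ideal.Quotient.mk v.asIdeal)).toAffine.Equation xy.1 xy.2}) =
        Pool.Agent.H341R2.EC.aff (Pool.Agent.H341R2.EC.red v (W v)) := by
      unfold Pool.Agent.H341R2.EC.aff Pool.Agent.H341R2.EC.red
      refine Nat.card_congr (Equiv.subtypeEquivRight fun q => ?_)
      exact WeierstrassCurve.Affine.equation_iff ..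
    unfold trace Pool.Agent.H341R2.EC.trc
    rw [h1]
    push_cast
    rfl
  have hlf : ∀ (K : Type) [Field K] [NumberField K] (W : HeightOneSpectrum (𝓞 K) → WeierstrassCurve (𝓞 K))
      (v : HeightOneSpectrum (𝓞 K)) (s : ℂ), localFactor W v s = (Pool.Agent.R433.MD.lf W s v)⁻¹ := by
    intro K _ _ W v s
    have hne : ((Pool.Agent.H921R2.TatePole.nm v : ℕ) : ℂ) ≠ 0 := by
      exact_mod_cast (Pool.Agent.R433.MD.nm_pos v).ne'
    unfold localFactor Pool.Agent.R433.MD.lf
    rw [htr]
    congr 1
    congr 1
    unfold Pool.Agent.H341R2.EC.dlt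
    rw [show (1 - 2 * s : ℂ) = 1 + (-2 * s) by ring, Complex.cpow_add _ _ hne, Complex.cpow_one]
    split_ifs
    · ring
    · rw [one_mul]
      rfl
  have hlog : ∀ (K : Type) [Field K] [NumberField K] (W : HeightOneSpectrum (𝓞 K) → WeierstrassCurve (𝓞 K))
      (v : HeightOneSpectrum (𝓞 K)) (u : ℂ), 0 ≤ u.re →
      Complex.log (localFactor W v (3 / 2 + u)) = Pool.Agent.N534.EC.ll W u v := by
    intro K _ _ W v u hu
    rw [hlf]
    unfold Pool.Agent.N534.EC.ll
    rw [Complex.log_inv]
    have h2 := Run7.h113.LE.lf_ball W v u hu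
    have h3 := Complex.abs_re_le_norm (Pool.Agent.R433.MD.lf W (3 / 2 + u) v - 1)
    rw [Complex.sub_re, Complex.one_re, abs_le] at h3
    intro harg
    rw [Complex.arg_eq_pi_iff] at harg
    linarith [h3.1, harg.1]
  have hsum : ∀ (K : Type) [Field K] [NumberField K] (W : HeightOneSpectrum (𝓞 K) → WeierstrassCurve (𝓞 K)) (u : ℂ),
      0 ≤ u.re → ∀ x : ℕ, partialLog W (3 / 2 + u) x = Run7.h113.LE.Sx W x u := by
    intro K _ _ W u hu x
    unfold partialLog Run7.h113.LE.Sx
    have hf : {v : HeightOneSpectrum (𝓞 K) | Ideal.absNorm v.asIdeal < x}.Finite :=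
      Pool.Agent.W350.EdgeNF.hfin x
    rw [finsum_mem_eq_finite_toFinset_sum _ hf]
    exact Finset.sum_congr rfl fun v _ => hlog K W v u hu
  have hedge : ∀ (σ t : ℝ), (σ : ℂ) + edgePoint t = 3 / 2 + ((σ:ℂ) + t * Complex.I) := by
    intro σ t
    unfold edgePoint
    push_cast
    ring
  have hedge0 : ∀ t : ℝ, edgePoint t = 3 / 2 + (((0:ℝ):ℂ) + t * Complex.I) := by
    intro t
    rw [← hedge, Complex.ofReal_zero, zero_add]
  -- the limits
  have hlim : ∀ (K : Type) [Field K] [NumberField K] (W : HeightOneSpectrum (𝓞 K) → WeierstrassCurve (𝓞 K)) (u l : ℂ),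
      0 ≤ u.re → Tendsto (fun x => Run7.h113.LE.Sx W x u) atTop (𝓝 l) →
        Tendsto (partialLog W (3 / 2 + u)) atTop (𝓝 l) ∧ logValue W (3 / 2 + u) = l := by
    intro K _ _ W u l hu h
    have h1 : Tendsto (partialLog W (3 / 2 + u)) atTop (𝓝 l) := h.congr fun x => (hsum K W u hu x).symm
    exact ⟨h1, h1.limUnder_eq⟩
  have hLL : ∀ (K : Type) [Field K] [NumberField K] (W : HeightOneSpectrum (𝓞 K) → WeierstrassCurve (𝓞 K)) (u : ℂ),
      0 < u.re → Tendsto (partialLog W (3 / 2 + u)) atTop (𝓝 (Run7.h113.LE.LL W u)) ∧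
        logValue W (3 / 2 + u) = Run7.h113.LE.LL W u := by
    intro K _ _ W u hu
    refine hlim K W u _ hu.le ?_
    have h1 := Run7.h113.LE.LL_lim W hu u.im
    rw [Complex.re_add_im] at h1
    exact h1
  have hisl : ∀ (K : Type) [Field K] [NumberField K] (W : HeightOneSpectrum (𝓞 K) → WeierstrassCurve (𝓞 K)) (σ : ℝ),
      0 ≤ σ → Run7.h113.LE.IsLim W σ (fun t => logValue W (σ + edgePoint t)) := by
    intro K _ _ W σ hσ
    unfold Run7.h113.LE.IsLim
    rcases hσ.eq_or_lt with h | h
    · subst h
      filter_upwards [Run7.h113.LE.Ex_ae W] with t ht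
      have h1 := Run7.h113.LE.Lam_tendsto W ht
      rw [hedge, (hlim K W _ _ (by simp) h1).2]
      exact h1
    · refine Eventually.of_forall fun t => ?_
      have h1 := Run7.h113.LE.LL_lim W h t
      beta_reduce
      rw [hedge, (hlim K W _ _ (by simp [h.le]) h1).2]
      exact h1
  -- the Euler polynomials
  have hEP : ∀ (K : Type) [Field K] [NumberField K] (W : HeightOneSpectrum (𝓞 K) → WeierstrassCurve (𝓞 K)) (p : ℕ),
      p.Prime → eulerPolynomial W p = Run7.h401.SD.EP W p := by
    intro K _ _ W p hp
    unfold eulerPolynomial Run7.h401.SD.EP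
    have hset : {v : HeightOneSpectrum (𝓞 K) | ((p : ℕ) : 𝓞 K) ∈ v.asIdeal} = (Run7.h401.SD.Gf K p : Set _) := by
      ext v
      rw [Set.mem_ofPred_eq, above_iff hp, Finset.mem_coe, Run7.h401.SD.mem_Gf hp]
    rw [hset, finprod_mem_coe_finset]
    refine Finset.prod_congr rfl fun v hv => ?_
    have hb := (Run7.h401.SD.mem_Gf hp).1 hv
    have hdeg : (Ideal.absNorm v.asIdeal).factorization p = Pool.Agent.H921R2.TatePole.deg v := by
      unfold Pool.Agent.H921R2.TatePole.deg
      rw [hb]
    unfold Run7.h401.SD.Ep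
    rw [hdeg, htr]
    congr 3
    unfold Pool.Agent.H341R2.EC.dlt
    split_ifs
    · rw [zero_mul]
    · rw [one_mul]
      rfl
  have hPz : ∀ (K : Type) [Field K] [NumberField K] (W : HeightOneSpectrum (𝓞 K) → WeierstrassCurve (𝓞 K)) (p : ℕ),
      (Run7.h401.SD.EP W p).eval 0 = 1 := by
    intro K _ _ W p
    unfold Run7.h401.SD.EP
    rw [Polynomial.eval_prod]
    refine Finset.prod_eq_one fun v _ => ?_
    have hdeg := (Pool.Agent.H921R2.TatePole.nm_eq v).2.1
    unfold Run7.h401.SD.Ep
    simp only [Polynomial.eval_add, Polynomial.eval_sub, Polynomial.eval_one, Polynomial.eval_mul, Polynomial.eval_C,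
      Polynomial.eval_pow, Polynomial.eval_X]
    rw [zero_pow (by omega), zero_pow (by omega)]
    simp
  refine ⟨fun K _ _ E _ W hW => ⟨?_, ?_⟩, fun m K _ _ E _ W hW s hs hcase => ?_⟩
  · intro s hs
    obtain ⟨u, rfl⟩ : ∃ u : ℂ, s = 3 / 2 + u := ⟨s - 3 / 2, by ring⟩
    have hu : 0 < u.re := by
      have e : ((3:ℂ) / 2 + u).re = 3 / 2 + u.re := by simp
      rw [e] at hs
      linarith
    obtain ⟨h1, h2⟩ := hLL K W u hu
    rw [h2]
    refine ⟨h1, ?_⟩
    unfold Run7.h113.LE.LL LSeries
    have h3 : ∀ v, Pool.Agent.N534.EC.ll W u v = Complex.log (localFactor W v (3 / 2 + u)) := fun v =>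
      (hlog K W v u hu.le).symm
    simp_rw [h3]
    refine Complex.cexp_tsum_eq_tprod (fun v => ?_) ?_
    · rw [hlf]
      exact inv_ne_zero (Pool.Agent.R433.MD.lf_ne_zero W hs v)
    · exact (Run7.h113.LE.ll_summable W hu).congr h3
  · filter_upwards [Run7.h113.LE.Ex_ae W] with t ht
    obtain ⟨h1, h2⟩ := hlim K W _ _ (by simp) (Run7.h113.LE.Lam_tendsto W ht)
    rw [← hedge0] at h1 h2
    rw [h2]
    exact h1
  · set σ : Fin m → ℝ := fun i => (s i).re with hσd
    set τ : Fin m → ℝ := fun i => (s i).im with hτd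
    have hsi : ∀ i, (σ i : ℂ) + τ i * Complex.I = s i := fun i => Complex.re_add_im (s i)
    have hind : Run7.h401.SM.Ind W σ τ := by
      rcases hcase with ⟨hE, hinj⟩ | ⟨hss, hI⟩ | hI
      · rcases Nat.eq_zero_or_pos m with rfl | hm
        · intro n hn
          exact absurd (Subsingleton.elim n 0) hn
        · have hEE : ∀ i, E i = E ⟨0, hm⟩ := fun i => hE i ⟨0, hm⟩
          refine Run7.h401.SM.ind_base (E ⟨0, hm⟩) (V := W) (fun i w => ?_) (fun i j h1 h2 => ?_)
          · have h3 := hW i w
            rw [hEE i] at h3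
            refine ⟨?_, fun W' hW' n hn => ?_⟩
            · obtain ⟨C, hC⟩ := h3.1
              exact ⟨C⁻¹, by rw [← hC, inv_smul_smul]⟩
            · obtain ⟨C, hC⟩ := hW'
              exact h3.2 W' ⟨C⁻¹, by rw [← hC, inv_smul_smul]⟩ n hn
          · exact hinj (Complex.ext h1 h2)
      · rcases Nat.eq_zero_or_pos m with rfl | hm
        · intro n hn
          exact absurd (Subsingleton.elim n 0) hn
        · have h1 : σ = fun _ => (s ⟨0, hm⟩).re := funext fun i => by rw [hσd]; simp only; rw [hss i ⟨0, hm⟩]
          have h2 : τ = fun _ => (s ⟨0, hm⟩).im := funext fun i => by rw [hτd]; simp only; rw [hss i ⟨0, hm⟩]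
          rw [h1, h2]
          refine Run7.h401.SM.ind_same _ _ fun n hn => (hI n hn).mono fun p hp => ⟨hp.1, ?_⟩
          have h3 := hp.2
          simp only [hEP _ _ p hp.1] at h3
          exact h3
      · intro n hn
        refine (hI n hn).mono fun p hp => ⟨hp.1, fun heq => hp.2 ?_⟩
        have hp0 : (p : ℂ) ≠ 0 := by exact_mod_cast hp.1.ne_zero
        set c : ℂ := (p : ℂ) ^ ((3:ℂ) / 2) with hc
        have h1 : ∀ i, shiftedPolynomial (W i) (s i) p =
            (Run7.h401.SM.PP W σ τ p i).comp (Polynomial.C c * Polynomial.X) := by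
          intro i
          rw [Run7.h401.SM.PP_eq W σ τ hp.1 i, Polynomial.comp_assoc]
          unfold shiftedPolynomial
          rw [hEP _ _ p hp.1]
          congr 1
          simp only [Polynomial.mul_comp, Polynomial.C_comp, Polynomial.X_comp]
          rw [← mul_assoc, ← Polynomial.C_mul]
          congr 2
          rw [hc, ← Complex.cpow_add _ _ hp0]
          congr 1
          rw [← hsi i]
          ring
        simp only [h1]
        have h2 := congrArg (fun R : Polynomial ℂ => R.comp (Polynomial.C c * Polynomial.X)) heq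
        simp only [Polynomial.prod_comp, Polynomial.pow_comp] at h2
        exact h2
    obtain ⟨f, hf1, hf2, hf3, hf4, hf5, hf6⟩ := Run7.h401.SM.smooth_jointm W (σ := σ) (fun i => hs i) τ
      (Run7.h401.SM.dir_of_ind hind) (g := fun i t => logValue (W i) (σ i + edgePoint t))
      (fun i => hisl (K i) (W i) (σ i) (hs i))
    refine ⟨f, hf1, hf2, hf3, hf4, hf5, fun B hB ε hε => ?_⟩
    obtain ⟨H₀, hH₀, h⟩ := hf6 B hB ε hε
    refine ⟨H₀, hH₀, fun H hH T => ?_⟩
    have h1 := h H hH T
    have h2 : ∀ i (t : ℝ), (σ i : ℂ) + edgePoint (t + τ i) = s i + edgePoint t := by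
      intro i t
      rw [← hsi i]
      unfold edgePoint
      push_cast
      ring
    simp only [h2] at h1
    exact h1

end Pool.Agent.Results.MP_bf9450_nt.JointDensityManyFields
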