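import Mathlib
import Pool.Agent.Run7.h508.BR.Zero
import Pool.Agent.Run7.h508.BR.PC
import Pool.Agent.Run7.h508.BR.FE
import Pool.Agent.Run7.h508.BR.LCont

/-!
# The functional equation of a rational elliptic curve over all number fields and everywhere
unramified extensions of prime degree

`E` is an elliptic curve over `ℚ`, given by a Weierstrass equation over `ℤ`. The property
`HasEquation W K` of a number field `K` says that for some `n > 0` the function `L(E/K, s) ^ n` has a
meromorphic continuation to `ℂ` and satisfies the functional equation between `s` and `2 - s` with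
the gamma factor `Γ(s) ^ (n [K : ℚ])`, an exponential factor `e ^ (a s)` and finitely many factors
`(1 - β q ^ (-s)) ^ e`, where the prime factors of `q` divide the discriminant of the equation. It
holds for `K = ℚ` by the modularity theorem, and for all imaginary quadratic fields.

It holds for all number fields if and only if the quotients `L(E/L, s) / L(E/K, s)` have it, where
`L/K` is an everywhere unramified extension of prime degree of a totally complex field, completely
split above a given integer `m`.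
-/

set_option autoImplicit false
set_option linter.unusedSectionVars false

namespace Pool.Agent.Results.MP_bf9450_nt.UnramifiedFunctionalEquation

open NumberField IsDedekindDomain

/-- The number of the affine points of the reduction of `W` modulo the prime `v` with coordinates in
the extension of degree `n` of the residue field of `v`. -/
noncomputable def affinePoints {K : Type} [Field K] [NumberField K] (W : WeierstrassCurve (𝓞 K))
    (v : HeightOneSpectrum (𝓞 K)) (n : ℕ) : ℕ :=
  Nat.card {z : AlgebraicClosure v.asIdeal.ResidueField × AlgebraicClosure v.asIdeal.ResidueField //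
    z.1 ^ (Ideal.absNorm v.asIdeal ^ n) = z.1 ∧ z.2 ^ (Ideal.absNorm v.asIdeal ^ n) = z.2 ∧
      (W.map (algebraMap (𝓞 K) (AlgebraicClosure v.asIdeal.ResidueField))).toAffine.Equation
        z.1 z.2}

open Classical in
/-- The trace `α ^ n + β ^ n = q ^ n + 1 - #E(𝔽_{q ^ n})` of the `n`-th power of the Frobenius
automorphism at `v`, `q = N(v)`; zero when `v` divides the discriminant. -/
noncomputable def trace {K : Type} [Field K] [NumberField K] (W : WeierstrassCurve (𝓞 K))
    (v : HeightOneSpectrum (𝓞 K)) (n : ℕ) : ℂ :=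
  if W.Δ ∈ v.asIdeal then 0 else (Ideal.absNorm v.asIdeal : ℂ) ^ n - affinePoints W v n

/-- The term of `log L(E/K, s)` of the power `v ^ n`. -/
noncomputable def term {K : Type} [Field K] [NumberField K] (W : WeierstrassCurve (𝓞 K)) (s : ℂ)
    (x : HeightOneSpectrum (𝓞 K) × ℕ+) : ℂ :=
  trace W x.1 x.2 / ((x.2 : ℕ) * (Ideal.absNorm x.1.asIdeal : ℂ) ^ (((x.2 : ℕ) : ℂ) * s))

/-- `log L(E/K, s)`, `Re s > 2`; the Euler factors at the primes which divide the discriminant are
left out. -/
noncomputable def logL {K : Type} [Field K] [NumberField K] (W : WeierstrassCurve (𝓞 K)) (s : ℂ) :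
    ℂ := ∑' x : HeightOneSpectrum (𝓞 K) × ℕ+, term W s x

/-- The equation over `K`. -/
noncomputable def overField (W : WeierstrassCurve ℤ) (K : Type) [Field K] [NumberField K] :
    WeierstrassCurve (𝓞 K) := W.map (Int.castRingHom (𝓞 K))

/-- The product of the factors `(1 - β q ^ (-s)) ^ e`, `(β, q, e)` in `L`. -/
noncomputable def factors (L : List (ℂ × ℕ × ℤ)) (s : ℂ) : ℂ :=
  (L.map fun x => (1 - x.1 * (x.2.1 : ℂ) ^ (-s)) ^ x.2.2).prod

/-- The completed function `e ^ (a s) Γ(s) ^ d ∏ (1 - β q ^ (-s)) ^ e Z(s)`. -/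
noncomputable def completed (a : ℝ) (d : ℤ) (L : List (ℂ × ℕ × ℤ)) (Z : ℂ → ℂ) (s : ℂ) : ℂ :=
  Complex.exp (a * s) * Complex.Gamma s ^ d * factors L s * Z s

/-- All prime factors of `q ≠ 0` divide the discriminant. -/
def IsBad (W : WeierstrassCurve ℤ) (q : ℕ) : Prop :=
  q ≠ 0 ∧ ∀ p : ℕ, p.Prime → p ∣ q → (p : ℤ) ∣ W.Δ

/-- For some `n > 0` the `n`-th power of the function `exp (l s)`, `Re s > 2`, has a meromorphic
continuation to `ℂ` and satisfies a functional equation between `s` and `2 - s` with the gamma factor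
`Γ(s) ^ (n d)`. The two sides of the equation are meromorphic functions; they are equal outside a
discrete closed set. -/
def Functional (W : WeierstrassCurve ℤ) (l : ℂ → ℂ) (d : ℤ) : Prop :=
  ∃ n : ℕ, 0 < n ∧ ∃ Z : ℂ → ℂ, MeromorphicOn Z Set.univ ∧
    (∀ s : ℂ, 2 < s.re → Z s = Complex.exp (n * l s)) ∧
    ∃ (a : ℝ) (L : List (ℂ × ℕ × ℤ)), (∀ x ∈ L, IsBad W x.2.1) ∧
      ∀ᶠ s in Filter.codiscrete ℂ, completed a (n * d) L Z s = completed a (n * d) L Z (2 - s)

/-- The functional equation of `L(E/K, s)`. -/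
def HasEquation (W : WeierstrassCurve ℤ) (K : Type) [Field K] [NumberField K] : Prop :=
  Functional W (logL (overField W K)) (Module.finrank ℚ K)

/-- The functional equation of the quotient `L(E/L, s) / L(E/K, s)`. -/
def QuotientEquation (W : WeierstrassCurve ℤ) (K L : Type) [Field K] [NumberField K] [Field L]
    [NumberField L] : Prop :=
  Functional W (fun s => logL (overField W L) s - logL (overField W K) s)
    (Module.finrank ℚ L - Module.finrank ℚ K)

/-- All inertia groups of `L/K` are trivial, and the decomposition groups of the primes above `m`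
are trivial. -/
def UnramifiedSplit (m : ℕ) (K L : Type) [Field K] [Field L] [Algebra K L] : Prop :=
  ∀ P : Ideal (𝓞 L), P.IsMaximal → ∀ g : L ≃ₐ[K] L,
    ((∀ x y : 𝓞 L, (y : L) = g x → y - x ∈ P) → g = 1) ∧
    ((m : 𝓞 L) ∈ P → (∀ x y : 𝓞 L, (y : L) = g x → (y ∈ P ↔ x ∈ P)) → g = 1)

/-- The functional equation of the quotients in the everywhere unramified extensions of prime degree,
split above `m`, of totally complex fields. -/
def UnramifiedCase (W : WeierstrassCurve ℤ) (m : ℕ) : Prop :=
  ∀ (K L : Type) [Field K] [NumberField K] [Field L] [NumberField L] [Algebra K L] [IsGalois K L],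
    IsTotallyComplex K → (Module.finrank K L).Prime → UnramifiedSplit m K L → QuotientEquation W K L

/-- The number of the real embeddings of `K`. -/
noncomputable def realEmbeddings (K : Type) [Field K] : ℕ :=
  Nat.card {χ : K →+* ℂ // ComplexEmbedding.IsReal χ}

open Pool.Agent.Run7.h508.BR in
lemma unrSplit_of {m : ℕ} {K L : Type} [Field K] [Field L] [Algebra K L]
    (h : UnrSplit m K L) : UnramifiedSplit m K L := by
  intro P hP g
  refine ⟨fun h1 => (h P hP).1 g fun x => h1 x _ rfl, fun hm h1 => (h P hP).2 hm g fun x =>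
    h1 x _ rfl⟩

open Pool.Agent.Run7.h508.BR in
lemma cont_iff {W : WeierstrassCurve ℤ} {l l' : ℂ → ℂ} {r : ℤ}
    (h : ∀ s : ℂ, 2 < s.re → l s = l' s) : Functional W l r ↔ FWCont (IsBad W) l' r := by
  constructor
  · rintro ⟨n, hn, Z, h1, h2, h3⟩
    refine ⟨n, hn, n * r, by push_cast; rfl, Z, h1, fun s hs => ?_, h3⟩
    rw [h2 s hs, h s hs, Pi.smul_apply, nsmul_eq_mul]
  · rintro ⟨n, hn, m, hm, Z, h1, h2, h3⟩
    have h4 : m = n * r := by exact_mod_cast hm
    subst h4
    refine ⟨n, hn, Z, h1, fun s hs => ?_, h3⟩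
    rw [h2 s hs, h s hs, Pi.smul_apply, nsmul_eq_mul]

open Pool.Agent.Run7.h508.BR in
lemma trace_eq {K : Type} [Field K] [NumberField K] (W : WeierstrassCurve (𝓞 K))
    (x : HeightOneSpectrum (𝓞 K) × ℕ+) : trace W x.1 x.2 = wE W x := rfl

lemma over_eq (W : WeierstrassCurve ℤ) (K : Type) [Field K] [NumberField K] [Algebra ℚ K] :
    (overField W ℚ).map (algebraMap (𝓞 ℚ) (𝓞 K)) = overField W K := by
  rw [overField, overField, WeierstrassCurve.map_map]
  congr 1
  exact Subsingleton.elim _ _

open Pool.Agent.Run7.h508.BR in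
lemma logL_eq (W : WeierstrassCurve ℤ) (K : Type)
    [Field K] [NumberField K] [Algebra ℚ K] (s : ℂ) :
    logL (overField W K) s = Lam (wE (overField W ℚ)) K s := by
  unfold logL Lam
  congr 1
  funext x
  unfold term
  rw [trace_eq, ← over_eq, wE_base]
  rfl

section proof

open Pool.Agent.Run7.h508.BR

variable (W : WeierstrassCurve ℤ)

/-- the pair of the logarithm of the L-function and the degree, modulo the conjecture -/
noncomputable def defect : FieldFun ℚ (((ℂ → ℂ) × ℚ) ⧸ fSub (IsBad W)) :=
  ((lfun (wE (overField W ℚ)) (wE_bound (overField W ℚ))).pair (degFun ℚ)).comp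
    (fSub (IsBad W)).mkQ.toAddMonoidHom

/-- the pair of the logarithm of the L-function and the degree -/
noncomputable def vec (K : Type) [Field K] [NumberField K] : (ℂ → ℂ) × ℚ :=
  (fun s => if 2 < s.re then logL (overField W K) s else 0, (Module.finrank ℚ K : ℚ))

lemma defect_f (K : Type) [Field K] [NumberField K] [Algebra ℚ K] :
    (defect W).f K = (fSub (IsBad W)).mkQ (vec W K) := by
  rename_i alg
  obtain rfl : alg = DivisionRing.toRatAlgebra := Subsingleton.elim _ _
  change (fSub (IsBad W)).mkQ (((lfun (wE (overField W ℚ)) (wE_bound (overField W ℚ))).f K,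
    (degFun ℚ).f K)) = _
  congr 1
  refine Prod.ext ?_ rfl
  funext s
  change (if 2 < s.re then Lam (wE (overField W ℚ)) K s else 0) =
    if 2 < s.re then logL (overField W K) s else 0
  rw [logL_eq]

lemma cont_iff_zero (K : Type) [Field K] [NumberField K] :
    HasEquation W K ↔ (defect W).f K = 0 := by
  rw [defect_f, Submodule.mkQ_apply, Submodule.Quotient.mk_eq_zero, mem_fSub, HasEquation,
    cont_iff (l' := (vec W K).1) (fun s hs => by
      change _ = if 2 < s.re then logL (overField W K) s else 0
      rw [if_pos hs])]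
  rfl

lemma quot_iff (K L : Type) [Field K] [NumberField K] [Field L] [NumberField L] :
    QuotientEquation W K L ↔ (defect W).f K = (defect W).f L := by
  rw [eq_comm, ← sub_eq_zero, defect_f, defect_f, ← map_sub, Submodule.mkQ_apply,
    Submodule.Quotient.mk_eq_zero, mem_fSub, QuotientEquation,
    cont_iff (l' := (vec W L - vec W K).1) (fun s hs => by
      change _ = (if 2 < s.re then logL (overField W L) s else 0) -
        (if 2 < s.re then logL (overField W K) s else 0)
      rw [if_pos hs, if_pos hs])]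
  have h1 : (vec W L - vec W K).2 =
      (((Module.finrank ℚ L : ℤ) - (Module.finrank ℚ K : ℤ) : ℤ) : ℚ) := by
    push_cast
    rfl
  rw [h1]

lemma noChange_of {m : ℕ} (h : UnramifiedCase W m) : NoChange (defect W) m := by
  intro K L _ _ _ _ alg _ algL _ _ hK hp hu
  obtain rfl : alg = DivisionRing.toRatAlgebra := Subsingleton.elim _ _
  obtain rfl : algL = DivisionRing.toRatAlgebra := Subsingleton.elim _ _
  exact (quot_iff W K L).mp (h K L hK hp (unrSplit_of hu))

/-- the relations -/
lemma relation_of {m : ℕ} (hm : m ≠ 0) (h : UnramifiedCase W m) (K₀ : Type)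
    [Field K₀] [NumberField K₀] (hK₀ : IsTotallyComplex K₀) (ι : Type) [Fintype ι]
    (K : ι → Type) [∀ i, Field (K i)] [∀ i, NumberField (K i)] (t : ι → ℤ)
    (ht : ∑ i, t i * (realEmbeddings (K i) : ℤ) = 0) :
    Functional W (fun s => ∑ i, t i * (logL (overField W (K i)) s - logL (overField W K₀) s))
      (∑ i, t i * ((Module.finrank ℚ (K i) : ℤ) - Module.finrank ℚ K₀)) := by
  have key := real_formula_base (defect W) hm (noChange_of W h) K₀ hK₀ K
    (fun i => (t i : ℚ)) (fun v => by
      have h1 := congrArg (fun z : ℤ => (z : ℚ)) ht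
      push_cast at h1
      rw [← h1]
      refine Finset.sum_congr rfl fun i _ => ?_
      congr 2
      refine Nat.card_congr (Equiv.subtypeEquivRight fun χ => ?_)
      exact ⟨fun h => h.1, fun h => ⟨h, Subsingleton.elim _ _⟩⟩)
  have h1 : ∀ i, (t i : ℚ) • ((defect W).f (K i) - (defect W).f K₀) =
      (fSub (IsBad W)).mkQ ((t i : ℚ) • (vec W (K i) - vec W K₀)) := by
    intro i
    rw [defect_f, defect_f, map_smul, map_sub]
  rw [Finset.sum_congr rfl (fun i _ => h1 i), ← map_sum, Submodule.mkQ_apply,
    Submodule.Quotient.mk_eq_zero, mem_fSub] at key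
  have h2 : (∑ i, (t i : ℚ) • (vec W (K i) - vec W K₀)).2 =
      ((∑ i, t i * ((Module.finrank ℚ (K i) : ℤ) - Module.finrank ℚ K₀) : ℤ) : ℚ) := by
    rw [Prod.snd_sum]
    push_cast
    refine Finset.sum_congr rfl fun i _ => ?_
    rfl
  rw [h2] at key
  refine (cont_iff (fun s hs => ?_)).mpr key
  rw [Prod.fst_sum, Finset.sum_apply]
  refine Finset.sum_congr rfl fun i _ => ?_
  change _ = ((t i : ℚ) • ((if 2 < s.re then logL (overField W (K i)) s else 0) -
    (if 2 < s.re then logL (overField W K₀) s else 0)) : ℂ)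
  rw [if_pos hs, if_pos hs, Rat.smul_def]
  push_cast
  rfl

lemma iff_of {m : ℕ} (hm : m ≠ 0) (K₀ : Type) [Field K₀] [NumberField K₀]
    (hK₀ : IsTotallyComplex K₀) (hQ : HasEquation W ℚ) (h0 : HasEquation W K₀) :
    (∀ (K : Type) [Field K] [NumberField K], HasEquation W K) ↔ UnramifiedCase W m := by
  constructor
  · intro h K L _ _ _ _ _ _ _ _ _
    rw [quot_iff W, (cont_iff_zero W K).mp (h K), (cont_iff_zero W L).mp (h L)]
  · intro h K _ _
    rw [cont_iff_zero W]
    refine zero_of_real (defect W) hm (noChange_of W h) K₀ hK₀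
      ((cont_iff_zero W K₀).mp h0) (fun v hreal => ?_) K
    refine ⟨ℚ, inferInstance, inferInstance, inferInstance, ?_,
      fun v' hv' => absurd (Subsingleton.elim v' v) hv', ?_⟩
    · have : Nonempty {χ : ℚ →+* ℂ // ComplexEmbedding.IsReal χ ∧
          χ.comp (algebraMap ℚ ℚ) = v} := ⟨⟨v, hreal, Subsingleton.elim _ _⟩⟩
      exact Nat.card_pos
    · have h1 := (cont_iff_zero W ℚ).mp hQ
      rw [defect_f] at h1 ⊢
      exact h1

end proof

/-- the equation for the function itself -/
lemma exact_of {W : WeierstrassCurve ℤ} {l : ℂ → ℂ} {d : ℤ} (h : Functional W l d) {Λ : ℂ → ℂ}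
    (hΛ : MeromorphicOn Λ Set.univ) (hl : ∀ s : ℂ, 2 < s.re → Λ s = Complex.exp (l s)) :
    ∃ n : ℕ, 0 < n ∧ ∃ (a : ℝ) (L : List (ℂ × ℕ × ℤ)), (∀ x ∈ L, IsBad W x.2.1) ∧
      ∀ᶠ s in Filter.codiscrete ℂ,
        completed a (n * d) L (Λ ^ n) s = completed a (n * d) L (Λ ^ n) (2 - s) := by
  obtain ⟨n, hn, Z, h1, h2, a, L, h3, h4⟩ := h
  refine ⟨n, hn, a, L, h3, ?_⟩
  let D : ℂ → ℂ := Λ ^ n - Z
  have hD : MeromorphicOn D Set.univ := (hΛ.pow n).sub h1
  have h5 : meromorphicOrderAt D 3 = ⊤ := by
    rw [meromorphicOrderAt_eq_top_iff]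
    have h4 : ∀ᶠ z in nhds (3 : ℂ), 2 < z.re := by
      have h5 : IsOpen {z : ℂ | 2 < z.re} := isOpen_lt continuous_const Complex.continuous_re
      exact h5.mem_nhds (by norm_num)
    refine (h4.filter_mono nhdsWithin_le_nhds).mono fun z hz => ?_
    change Λ z ^ n - Z z = 0
    rw [hl z hz, h2 z hz, ← Complex.exp_nat_mul, sub_self]
  have h6 : ∀ z : ℂ, ∀ᶠ w in nhdsWithin z {z}ᶜ, Λ w ^ n = Z w := by
    intro z
    have h4 : meromorphicOrderAt D z = ⊤ := by
      by_contra hne
      exact (hD.meromorphicOrderAt_ne_top_of_isPreconnected isPreconnected_univ (Set.mem_univ z)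
        (Set.mem_univ 3) hne) h5
    rw [meromorphicOrderAt_eq_top_iff] at h4
    filter_upwards [h4] with w hw
    exact sub_eq_zero.mp hw
  have h8 : ∀ᶠ z in Filter.codiscrete ℂ, Λ z ^ n = Z z := by
    refine mem_codiscreteWithin_iff_forall_mem_nhdsNE.mpr fun z _ => ?_
    refine Filter.mem_of_superset (h6 z) fun w hw => Or.inl hw
  have h7 : ∀ᶠ z in Filter.codiscrete ℂ, Λ (2 - z) ^ n = Z (2 - z) := by
    refine mem_codiscreteWithin_iff_forall_mem_nhdsNE.mpr fun z _ => ?_
    have h9 : Filter.Tendsto (fun w : ℂ => 2 - w) (nhdsWithin z {z}ᶜ)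
        (nhdsWithin (2 - z) {2 - z}ᶜ) := by
      refine tendsto_nhdsWithin_iff.mpr ⟨?_, ?_⟩
      · exact (Continuous.tendsto (by fun_prop) z).mono_left nhdsWithin_le_nhds
      · filter_upwards [self_mem_nhdsWithin] with w hw h
        apply hw
        have h' : 2 - w = 2 - z := h
        exact sub_right_injective h'
    refine Filter.mem_of_superset (h9.eventually (h6 (2 - z))) fun w hw => Or.inl hw
  filter_upwards [h4, h8, h7] with s e1 e2 e3
  unfold completed at e1 ⊢
  rw [Pi.pow_apply, Pi.pow_apply, e2, e3]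
  exact e1

/-- **Main theorem.** Let `E` be an elliptic curve over `ℚ`, given by a Weierstrass equation over
`ℤ`.

* The series `log L(E/K, s)` converges absolutely for `Re s > 2`, to a continuous function.
* If `exp (l s)` has the property `Functional` with `d` gamma factors and has itself a meromorphic
  continuation `Λ` to `ℂ`, then for some `n > 0` the functional equation holds for `Λ ^ n` with
  `n d` gamma factors.
* Let `K₀` be totally complex. Assume the functional equation for the quotients in the unramified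
  case. For all finite families of number fields `K_i` and integers `t_i` such that
  `∑ t_i r_1(K_i) = 0`, the product of the `(L(E/K_i, s) / L(E/K₀, s)) ^ t_i` has the functional
  equation. So all quotients `L(E/K, s) / L(E/K₀, s)`, `K` totally complex, have it.
* If the functional equation holds over `ℚ` and over one totally complex field `K₀`, then it holds
  over all number fields if and only if it holds for the quotients in the unramified case. -/
theorem result (W : WeierstrassCurve ℤ) :
    (∀ (K : Type) [Field K] [NumberField K], (∀ s : ℂ, 2 < s.re → Summable (term (overField W K) s)) ∧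
      ContinuousOn (logL (overField W K)) {s : ℂ | 2 < s.re}) ∧
    (∀ (l : ℂ → ℂ) (d : ℤ), Functional W l d → ∀ Λ : ℂ → ℂ, MeromorphicOn Λ Set.univ →
      (∀ s : ℂ, 2 < s.re → Λ s = Complex.exp (l s)) →
      ∃ n : ℕ, 0 < n ∧ ∃ (a : ℝ) (L : List (ℂ × ℕ × ℤ)), (∀ x ∈ L, IsBad W x.2.1) ∧
        ∀ᶠ s in Filter.codiscrete ℂ,
          completed a (n * d) L (Λ ^ n) s = completed a (n * d) L (Λ ^ n) (2 - s)) ∧
    ∀ m : ℕ, m ≠ 0 → ∀ (K₀ : Type) [Field K₀] [NumberField K₀], IsTotallyComplex K₀ →
      (UnramifiedCase W m → ∀ (ι : Type) [Fintype ι] (K : ι → Type) [∀ i, Field (K i)]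
        [∀ i, NumberField (K i)] (t : ι → ℤ), ∑ i, t i * (realEmbeddings (K i) : ℤ) = 0 →
        Functional W (fun s => ∑ i, t i * (logL (overField W (K i)) s - logL (overField W K₀) s))
          (∑ i, t i * ((Module.finrank ℚ (K i) : ℤ) - Module.finrank ℚ K₀))) ∧
      (HasEquation W ℚ → HasEquation W K₀ →
        ((∀ (K : Type) [Field K] [NumberField K], HasEquation W K) ↔ UnramifiedCase W m)) := by
  refine ⟨?_, fun l d h Λ hΛ hl => exact_of h hΛ hl, ?_⟩
  · intro K _ _
    refine ⟨fun s hs => ?_, ?_⟩
    · exact Pool.Agent.Run7.h508.BR.tm_summable (Pool.Agent.Run7.h508.BR.wE (overField W K))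
        (Pool.Agent.Run7.h508.BR.wE_bound (overField W K)) hs
    · have h1 := Pool.Agent.Run7.h508.BR.lam_continuousOn
        (Pool.Agent.Run7.h508.BR.wE (overField W ℚ))
        (Pool.Agent.Run7.h508.BR.wE_bound (overField W ℚ)) K
      exact h1.congr fun s _ => logL_eq W K s
  · intro m hm K₀ _ _ hK₀
    exact ⟨fun h ι _ K _ _ t ht => relation_of W hm h K₀ hK₀ ι K t ht,
      fun hQ h0 => iff_of W hm K₀ hK₀ hQ h0⟩

end Pool.Agent.Results.MP_bf9450_nt.UnramifiedFunctionalEquation
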